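import Mathlib
import Pool.Agent.Y201.LI.DG
import Pool.Agent.R845.T2.Div
import Pool.Agent.R845.E3.Cc2

/-! # Cubic maps of odd index: lines and conics through a point of odd degree, over any field -/

set_option autoImplicit false

namespace Pool.Agent.Run7.h141.CE

open MvPolynomial Pool.Agent.TH314.PD Module Pool.Agent.Y201.C3 Pool.Agent.R845.E3
open Pool.Agent.R845.T2

noncomputable section

variable {M : Type} [Field M] [Algebra ℂ M]

theorem infM (M : Type) [Field M] [Algebra ℂ M] : Infinite M :=
  Infinite.of_injective _ (algebraMap ℂ M).injective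

/-- coefficients of a polynomial of degree at most six which vanishes everywhere -/
theorem coeffs7 (c : Fin 7 → M) (h : ∀ s : M, ∑ i, c i * s ^ (i : ℕ) = 0) : ∀ i, c i = 0 := by
  have := infM M
  let p : Polynomial M := ∑ i : Fin 7, Polynomial.C (c i) * Polynomial.X ^ (i : ℕ)
  have hp0 : p = 0 := by
    apply Polynomial.funext
    intro s
    rw [Polynomial.eval_zero, ← h s, Polynomial.eval_finsetSum]
    refine Finset.sum_congr rfl fun i _ => ?_
    rw [Polynomial.eval_mul, Polynomial.eval_C, Polynomial.eval_pow, Polynomial.eval_X]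
  intro i
  have h1 : p.coeff i = c i := by
    rw [Polynomial.finsetSum_coeff]
    simp only [Polynomial.coeff_C_mul, Polynomial.coeff_X_pow]
    rw [Finset.sum_eq_single i]
    · simp
    · intro j _ hj
      rw [if_neg, mul_zero]
      intro h2
      exact hj (Fin.ext h2.symm)
    · intro h2
      exact absurd (Finset.mem_univ i) h2
  rw [← h1, hp0, Polynomial.coeff_zero]

/-- restriction of a form to a line -/
theorem line_poly {N : ℕ} (F : MvPolynomial (Fin N) ℂ) (x u : Fin N → M) (P : Polynomial M)
    (h : ∀ τ : M, aeval (fun j => x j + τ * u j) F = P.eval τ) :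
    aeval (fun j => Polynomial.C (x j) + Polynomial.X * Polynomial.C (u j)) F = P := by
  have := infM M
  apply Polynomial.funext
  intro τ
  rw [← h τ]
  have h1 := MvPolynomial.comp_aeval_apply (R := ℂ) (fun j => Polynomial.C (x j) +
      Polynomial.X * Polynomial.C (u j))
      ((Polynomial.aeval τ : Polynomial M →ₐ[M] M).restrictScalars ℂ) F
  rw [AlgHom.restrictScalars_apply, Polynomial.coe_aeval_eq_eval] at h1
  rw [h1]
  congr 2
  funext j
  rw [AlgHom.restrictScalars_apply, Polynomial.coe_aeval_eq_eval]
  simp only [Polynomial.eval_add, Polynomial.eval_mul, Polynomial.eval_C, Polynomial.eval_X]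

/-- no line through a point of odd degree -/
theorem no_line {r : ℕ} {F : MvPolynomial (Fin (r + 1)) ℂ} (hF : F.IsHomogeneous 3) (hsm : Sm F)
    (x u : Fin (r + 1) → M) (hx : Gp F x) (hu : LinearIndependent M ![x, u])
    (h : ∀ τ : M, aeval (fun j => x j + τ * u j) F = 0) : 2 ∣ finrank (ratioField x) M := by
  refine Pool.Agent.Y201.LI.contact hF (by norm_num) hsm x hx.1 hx.2 u hu 0 ?_
  rw [Polynomial.C_0, zero_mul]
  exact line_poly F x u 0 (fun τ => by rw [h τ, Polynomial.eval_zero])

section conic

variable {N : ℕ} {T : Fin N → Fin N → Fin N → ℂ} (hT : SymG T) (a β γ : Fin N → M)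

/-- the curve -/
def xs (a β γ : Fin N → M) (s : M) : Fin N → M := fun i => s ^ 2 * a i + s * β i + γ i

include hT in
theorem rels (h : ∀ s : M, Bg T (xs a β γ s) (xs a β γ s) (xs a β γ s) = 0) :
    Bg T γ γ γ = 0 ∧ 3 * Bg T β γ γ = 0 ∧ 3 * Bg T a γ γ + 3 * Bg T β β γ = 0 ∧
      6 * Bg T a β γ + Bg T β β β = 0 ∧ 3 * Bg T a a γ + 3 * Bg T a β β = 0 ∧
      3 * Bg T a a β = 0 ∧ Bg T a a a = 0 := by
  have hz := coeffs7 ![Bg T γ γ γ, 3 * Bg T β γ γ, 3 * Bg T a γ γ + 3 * Bg T β β γ,
    6 * Bg T a β γ + Bg T β β β, 3 * Bg T a a γ + 3 * Bg T a β β, 3 * Bg T a a β, Bg T a a a] (by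
      intro s
      have h1 := Bg_span3 hT a β γ (s ^ 2) s (1 : M)
      have h2 : (fun i => s ^ 2 * a i + s * β i + 1 * γ i) = xs a β γ s := by
        funext i
        rw [xs]
        ring
      rw [h2, h s] at h1
      simp only [Fin.sum_univ_succ, Fin.sum_univ_zero]
      simp
      linear_combination -h1)
  exact ⟨hz 0, hz 1, hz 2, hz 3, hz 4, hz 5, hz 6⟩

include hT in
/-- the shape of the cubic on the plane of a conic -/
theorem shape (h : ∀ s : M, Bg T (xs a β γ s) (xs a β γ s) (xs a β γ s) = 0) (s p q : M)
    (v : Fin N → M) (hv : v = fun i => p * xs a β γ s i + q * a i) :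
    Bg T v v v = p ^ 2 * q * (-(3 * Bg T a β β * s ^ 2 + Bg T β β β * s + 3 * Bg T β β γ)) +
      p * q ^ 2 * (-(3 * Bg T a β β)) := by
  obtain ⟨z0, z1, z2, z3, z4, z5, z6⟩ := rels hT a β γ h
  have h1 := Bg_span3 hT a β γ (p * s ^ 2 + q) (p * s) p
  have h2 : (fun i => (p * s ^ 2 + q) * a i + p * s * β i + p * γ i) = v := by
    funext i
    rw [hv]
    simp only [xs]
    ring
  rw [h2] at h1
  rw [h1]
  linear_combination p ^ 3 * z0 + p ^ 3 * s * z1 + (p * s ^ 2 + q) * p ^ 2 * z2 +
    (p * s ^ 2 + q) * p ^ 2 * s * z3 + (p * s ^ 2 + q) ^ 2 * p * z4 +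
    (p * s ^ 2 + q) ^ 2 * p * s * z5 + (p * s ^ 2 + q) ^ 3 * z6

end conic

/-- the point on the chord from a point of odd degree to a non-dominant point is generic of odd
degree in the projective space, if the chord lies in the plane of a conic through both points -/
theorem coreM {r : ℕ} {F : MvPolynomial (Fin (r + 1)) ℂ} (hF : F.IsHomogeneous 3) (hsm : Sm F)
    (t : M) (a β γ : Fin (r + 1) → M)
    (hcurve : ∀ s : M, aeval (xs a β γ s) F = 0)
    (hG : Gp F (xs a β γ t)) (hodd : Odd (finrank (ratioField (xs a β γ t)) M))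
    (ha : ¬ Gp F a) (hxa : LinearIndependent M ![xs a β γ t, a]) :
    (∀ (e : ℕ) (H : MvPolynomial (Fin (r + 1)) ℂ), H.IsHomogeneous e →
        aeval (fun j => algebraMap (Polynomial M) (FractionRing (Polynomial M))
          (Polynomial.C (xs a β γ t j) + Polynomial.X * Polynomial.C (a j))) H = 0 → H = 0) ∧
      Odd (finrank (ratioField fun j => algebraMap (Polynomial M) (FractionRing (Polynomial M))
        (Polynomial.C (xs a β γ t j) + Polynomial.X * Polynomial.C (a j)))
        (FractionRing (Polynomial M))) := by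
  classical
  have hinf := infM M
  have hodd2 : ¬ 2 ∣ finrank (ratioField (xs a β γ t)) M := fun h =>
    (Nat.not_even_iff_odd.2 hodd) (even_iff_two_dvd.2 h)
  obtain ⟨T, hT, hFT⟩ := exists_tri F hF
  have hev : ∀ v : Fin (r + 1) → M, aeval v F = Bg T v v v := by
    intro v
    conv_lhs => rw [hFT]
    exact aeval_frmG T v
  set x := xs a β γ t with hx
  set l1 : M := 3 * Bg T a β β with hl1d
  set l2 : M := Bg T β β β with hl2d
  set l3 : M := 3 * Bg T β β γ with hl3d
  set As : M → M := fun s => -(l1 * s ^ 2 + l2 * s + l3) with hAs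
  have hsh : ∀ (s p q : M), aeval (fun i => p * xs a β γ s i + q * a i) F =
      p ^ 2 * q * As s + p * q ^ 2 * (-l1) := by
    intro s p q
    rw [hev]
    exact shape hT a β γ (fun s => by rw [← hev]; exact hcurve s) s p q _ rfl
  have hline : aeval (fun j => Polynomial.C (x j) + Polynomial.X * Polynomial.C (a j)) F =
      Polynomial.C (As t) * Polynomial.X + Polynomial.C (-l1) * Polynomial.X ^ 2 := by
    refine line_poly F x a _ fun τ => ?_
    have h1 := hsh t 1 τ
    simp only [one_mul, one_pow] at h1
    rw [← hx] at h1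
    rw [h1]
    simp only [Polynomial.eval_add, Polynomial.eval_mul, Polynomial.eval_C, Polynomial.eval_X,
      Polynomial.eval_pow]
    ring
  have tan : S_TAN := tan_of div (nt Pool.Agent.Y201.LI.hT1) fi fd
  have hl1 : l1 ≠ 0 := by
    intro h0
    rw [h0, neg_zero, Polynomial.C_0, zero_mul, add_zero] at hline
    exact hodd2 (tan r 3 F hF (by norm_num) hsm M x a (As t) hxa hG.1 hG.2 hline)
  set y : Fin (r + 1) → M := fun j => -l1 * x j - As t * a j with hy
  set u : Fin (r + 1) → M := fun j => -l1 * β j + l2 * a j with hu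
  have hyu : ∀ τ : M, (fun j => y j + τ * u j) =
      fun j => -l1 * xs a β γ (t + τ) j + -As (t + τ) * a j := by
    intro τ
    funext j
    simp only [hy, hu, hx, hAs, xs]
    ring
  have hyline : ∀ τ : M, aeval (fun j => y j + τ * u j) F = 0 := by
    intro τ
    rw [hyu τ, hsh]
    ring
  have hy0 : ∀ c : M, c • y = 0 → c = 0 := by
    intro c hc
    have h1 : (c * -l1) • x + (-(c * As t)) • a = 0 := by
      rw [← hc]
      funext j
      simp only [hy, Pi.add_apply, Pi.smul_apply, smul_eq_mul]
      ring
    have h2 := (LinearIndependent.pair_iff.1 hxa _ _ h1).1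
    exact (mul_eq_zero.1 h2).resolve_right (neg_ne_zero.2 hl1)
  have hli : LinearIndependent M ![y, u] := by
    rw [LinearIndependent.pair_iff]
    intro p q hpq
    by_cases hq : q = 0
    · rw [hq, zero_smul, add_zero] at hpq
      exact ⟨hy0 p hpq, hq⟩
    exfalso
    set c : M := -(p / q) with hc
    have huc : ∀ j, u j = c * y j := by
      intro j
      have h1 := congrFun hpq j
      simp only [Pi.add_apply, Pi.smul_apply, smul_eq_mul, Pi.zero_apply] at h1
      rw [hc]
      field_simp
      linear_combination h1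
    have hprod : ∀ σ : M, (1 + (σ - t) * c) * (As σ - (1 + (σ - t) * c) * As t) * As σ = 0 := by
      intro σ
      set ρ : M := 1 + (σ - t) * c with hρ
      have h1 : (fun j => (-l1) * xs a β γ σ j) =
          fun j => (-ρ * l1) * xs a β γ t j + (As σ - ρ * As t) * a j := by
        funext j
        have h2 := congrFun (hyu (σ - t)) j
        rw [huc j, show t + (σ - t) = σ by ring] at h2
        have h3 : y j = -l1 * x j - As t * a j := rfl
        rw [hρ]
        rw [← hx]
        linear_combination -h2 + (1 + (σ - t) * c) * h3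
      have h4 : aeval (fun j => (-l1) * xs a β γ σ j) F = 0 := by
        rw [aeval_smul_form hF, hcurve σ, mul_zero]
      rw [h1, hsh] at h4
      have h5 : l1 ^ 3 * (ρ * (As σ - ρ * As t) * As σ) = 0 := by
        linear_combination h4 * l1
      exact (mul_eq_zero.1 h5).resolve_left (pow_ne_zero _ hl1)
    let P1 : Polynomial M := 1 + (Polynomial.X - Polynomial.C t) * Polynomial.C c
    let P2 : Polynomial M := -(Polynomial.C l1 * Polynomial.X ^ 2 + Polynomial.C l2 * Polynomial.X +
      Polynomial.C l3)
    have hP : P1 * (P2 - P1 * Polynomial.C (As t)) * P2 = 0 := by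
      apply Polynomial.funext
      intro σ
      rw [Polynomial.eval_zero, ← hprod σ]
      simp only [P1, P2, hAs, Polynomial.eval_mul, Polynomial.eval_add, Polynomial.eval_sub,
        Polynomial.eval_one, Polynomial.eval_X, Polynomial.eval_C, Polynomial.eval_neg,
        Polynomial.eval_pow]
    have c2 : P2.coeff 2 = -l1 := by
      simp [P2]
    have c1 : P1.coeff 2 = 0 := by
      have : P1 = Polynomial.C (1 - t * c) + Polynomial.C c * Polynomial.X := by
        simp only [P1, map_sub, map_one, map_mul]
        ring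
      rw [this]
      simp [Polynomial.coeff_one]
    rcases mul_eq_zero.1 hP with h1 | h1
    · rcases mul_eq_zero.1 h1 with h2 | h2
      · have h3 := congrArg (Polynomial.eval t) h2
        simp [P1] at h3
      · have h3 := congrArg (fun P => Polynomial.coeff P 2) h2
        simp only [Polynomial.coeff_sub, Polynomial.coeff_mul_C, Polynomial.coeff_zero, c1, c2,
          zero_mul, sub_zero] at h3
        exact hl1 (neg_eq_zero.1 h3)
    · have h3 := congrArg (fun P => Polynomial.coeff P 2) h1
      simp only [Polynomial.coeff_zero, c2] at h3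
      exact hl1 (neg_eq_zero.1 h3)
  have hthird : Gp F y → 2 ∣ finrank (ratioField y) M := fun h =>
    no_line hF hsm y u h hli hyline
  have hA0 : As t ≠ 0 := by
    intro h0
    have h1 : (fun j => y j / (-l1)) = x := by
      funext j
      simp only [hy]
      rw [h0]
      field_simp
      ring
    have h2 : ratioField y = ratioField x := by
      rw [← h1, Pool.Agent.Y929.LI.ratioField_div y (neg_ne_zero.2 hl1)]
    have h3 : y = fun j => -l1 * x j := by
      funext j
      simp only [hy]
      rw [h0]
      ring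
    have h4 : Gp F y := by
      rw [h3]
      refine ⟨by rw [aeval_smul_form hF, hG.1, mul_zero], fun e P hP h0 => ?_⟩
      rw [aeval_smul_form hP] at h0
      exact hG.2 e P hP ((mul_eq_zero.1 h0).resolve_left (pow_ne_zero _ (neg_ne_zero.2 hl1)))
    have h5 := hthird h4
    rw [h2] at h5
    exact hodd2 h5
  exact p3 r F hF hsm M x a (As t) (-l1) hxa hG hodd ha hA0 (neg_ne_zero.2 hl1) hline hthird

end

end Pool.Agent.Run7.h141.CE
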