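import Mathlib
import Pool.Agent.R845.E3.All
import Pool.Agent.R845.E3.Conics
import Pool.Agent.R845.E3.Rat
import Pool.Agent.R845.E3.Back
import Pool.Agent.Run7.h141.CE.Core

/-! # Cubic maps of odd index: no rational sections over extensions of odd degree -/

set_option autoImplicit false

namespace Pool.Agent.Run7.h141.CE

open MvPolynomial Pool.Agent.TH314.PD Module Pool.Agent.Y201.C3 Pool.Agent.R845.E3
open Pool.Agent.R845.T2

noncomputable section

/-- the projection from some linear subspace of the cubic has a rational section -/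
def Sect {N : ℕ} (F : MvPolynomial (Fin N) ℂ) : Prop :=
  ∃ (k m : ℕ) (σ : Fin (k + 1 + (m + 1)) ≃ Fin N) (U : Fin (k + 1) → Fin (m + 1) → ℂ),
    VanW (shear U (rename σ.symm F)) ∧ Iso (shear U (rename σ.symm F))

/-- a cubic hypersurface with a rational section is rational -/
theorem sect_rational {n : ℕ} (hn : 1 ≤ n) {F : MvPolynomial (Fin (n + 2)) ℂ}
    (hF : F.IsHomogeneous 3) (hsm : Sm F) (h : Sect F) :
    ∃ G : Fin (n + 2) → MvPolynomial (Fin n) ℂ,
      Gp F (fun i => algebraMap (MvPolynomial (Fin n) ℂ) (Rn n) (G i)) ∧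
      (ratioField fun i => algebraMap (MvPolynomial (Fin n) ℂ) (Rn n) (G i)) = ⊤ := by
  obtain ⟨k, m, σ, U, hW, hiso⟩ := h
  have hkm : k + m = n := by
    have h1 := Fintype.card_congr σ
    rw [Fintype.card_fin, Fintype.card_fin] at h1
    omega
  exact back hkm hF σ U (rat evn k m (by omega) _ (shear_hom hF.rename_isHomogeneous U)
    (sm_shear (sm_rename σ.symm hsm) U) hW hiso)

/-- a very general cubic hypersurface has no rational section -/
theorem sect_general {n : ℕ} (hn : 3 ≤ n) {F : MvPolynomial (Fin (n + 2)) ℂ}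
    (hF : F.IsHomogeneous 3) (hsm : Sm F)
    (hind : AlgebraicIndependent ℚ
      (fun β : {β : Fin (n + 2) →₀ ℕ // β.degree = 3} => coeff β.1 F)) : ¬ Sect F := by
  rintro ⟨k, m, σ, U, hW, hiso⟩
  have hkm : k + m = n := by
    have h1 := Fintype.card_congr σ
    rw [Fintype.card_fin, Fintype.card_fin] at h1
    omega
  exact at_all k m (by omega) _ hF.rename_isHomogeneous (sm_rename σ.symm hsm)
    (ind_rename σ.symm hind) U hW hiso

/-- `W` a linear subspace of the cubic: if a generic point `z` of the projective space over a field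
of odd degree has a point of the cubic over this field in its fibre of the projection from `W`,
then there is a rational section -/
theorem iso_gen {n : ℕ}
    {F : MvPolynomial (Fin (n + 2)) ℂ} (hF : F.IsHomogeneous 3) (hsm : Sm F)
    {P : ℕ} (A : Fin (n + 2) → Fin P → ℂ) (hA0 : A ≠ 0)
    (hA : ∀ a : Fin P → ℂ, eval (fun i => ∑ l, a l * A i l) F = 0)
    {E : Type} [Field E] [Algebra ℂ E] (x z : Fin (n + 2) → E) (hx : aeval x F = 0)
    (hz : ∀ (e : ℕ) (H : MvPolynomial (Fin (n + 2)) ℂ), H.IsHomogeneous e → aeval z H = 0 →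
      H = 0)
    (w : Fin P → E) (hw : ∀ i, z i = x i + ∑ l, w l * algebraMap ℂ E (A i l)) :
    Odd (finrank (ratioField z) E) → Sect F := by
  classical
  intro hodd
  have hF0 : F ≠ 0 := ne_zero_of_smooth (m := n + 1) hsm
  obtain ⟨k, m, σ, U, hli, hU⟩ := rows' A hA0 (by
    intro h
    apply hF0
    apply MvPolynomial.funext
    intro u
    obtain ⟨a, ha⟩ := h u
    rw [map_zero, ← hA a, show (fun i => ∑ l, a l * A i l) = u from funext ha])
  set F1 : MvPolynomial (Fin (k + 1 + (m + 1))) ℂ := rename σ.symm F with hF1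
  have hF1h : F1.IsHomogeneous 3 := hF.rename_isHomogeneous
  set F2 := shear U F1 with hF2
  -- `F2` vanishes on `W`
  have hsurj : ∀ u : Fin (k + 1) → ℂ, ∃ a : Fin P → ℂ,
      ∀ i, ∑ l, a l * A (σ (Fin.castAdd (m + 1) i)) l = u i := by
    intro u
    have h1 : Function.Surjective (Matrix.mulVecLin (Matrix.of fun i : Fin (k + 1) =>
        A (σ (Fin.castAdd (m + 1) i)))) := by
      rw [← LinearMap.range_eq_top]
      have h2 := LinearIndependent.rank_matrix (M := Matrix.of fun i : Fin (k + 1) =>
        A (σ (Fin.castAdd (m + 1) i))) hli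
      apply Submodule.eq_top_of_finrank_eq
      rw [Module.finrank_fin_fun]
      rw [Fintype.card_fin] at h2
      exact h2
    obtain ⟨a, ha⟩ := h1 u
    refine ⟨a, fun i => ?_⟩
    rw [← ha]
    simp only [Matrix.mulVecLin_apply, Matrix.mulVec, dotProduct, Matrix.of_apply]
    exact Finset.sum_congr rfl fun l _ => mul_comm _ _
  have hW : VanW F2 := by
    unfold VanW
    apply MvPolynomial.funext
    intro u
    rw [map_zero]
    obtain ⟨a, ha⟩ := hsurj u
    have h1 : eval u (aeval (Fin.append (X : Fin (k + 1) → MvPolynomial (Fin (k + 1)) ℂ) 0) F2) =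
        aeval (Fin.append u (0 : Fin (m + 1) → ℂ)) F2 := by
      have h2 := comp_aeval_apply (f := Fin.append (X : Fin (k + 1) →
        MvPolynomial (Fin (k + 1)) ℂ) 0) (aeval u) F2
      rw [aeval_eq_eval] at h2
      rw [h2]
      congr 2
      funext i
      refine Fin.addCases (fun j => ?_) (fun j => ?_) i
      · rw [Fin.append_left, Fin.append_left, eval_X]
      · rw [Fin.append_right, Fin.append_right, Pi.zero_apply, Pi.zero_apply, map_zero]
    rw [h1, hF2, aeval_shear, hF1, aeval_rename]
    have h3 : ((Fin.append (fun i => Fin.append u (0 : Fin (m + 1) → ℂ) (Fin.castAdd (m + 1) i))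
        (fun j => Fin.append u (0 : Fin (m + 1) → ℂ) (Fin.natAdd (k + 1) j) +
          ∑ i, algebraMap ℂ ℂ (U i j) * Fin.append u (0 : Fin (m + 1) → ℂ)
            (Fin.castAdd (m + 1) i))) ∘ σ.symm) = fun i => ∑ l, a l * A i l := by
      funext i
      obtain ⟨i', rfl⟩ := σ.surjective i
      simp only [Function.comp_apply, Equiv.symm_apply_apply]
      refine Fin.addCases (fun j => ?_) (fun j => ?_) i'
      · rw [Fin.append_left, Fin.append_left, ha]
      · rw [Fin.append_right, Fin.append_right, Pi.zero_apply, zero_add]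
        simp only [Fin.append_left, Algebra.algebraMap_self, RingHom.id_apply, hU]
        simp only [Finset.mul_sum]
        rw [Finset.sum_comm]
        refine Finset.sum_congr rfl fun i _ => ?_
        rw [← ha, Finset.mul_sum]
        refine Finset.sum_congr rfl fun l _ => ?_
        ring
    rw [h3, aeval_eq_eval]
    exact hA a
  -- the transformed points
  set x1 : Fin (k + 1 + (m + 1)) → E := fun i => x (σ i) with hx1
  set z1 : Fin (k + 1 + (m + 1)) → E := fun i => z (σ i) with hz1
  have hz1g : ∀ (e : ℕ) (H : MvPolynomial (Fin (k + 1 + (m + 1))) ℂ), H.IsHomogeneous e →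
      aeval z1 H = 0 → H = 0 := by
    intro e H hH h0
    have h1 := hz e (rename σ H) (hH.rename_isHomogeneous (f := σ)) (by
      rw [aeval_rename]
      exact h0)
    exact (rename_injective σ σ.injective) (h1.trans (map_zero _).symm)
  have hz2g : ∀ (e : ℕ) (H : MvPolynomial (Fin (k + 1 + (m + 1))) ℂ), H.IsHomogeneous e →
      aeval (tp U z1) H = 0 → H = 0 := by
    intro e H hH h0
    rw [← aeval_shear_neg] at h0
    have h1 := hz1g e _ (shear_hom hH _) h0
    rw [← shear_neg_shear U H, h1]
    unfold shear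
    rw [map_zero]
  have hx1F : aeval x1 F1 = 0 := by
    rw [hF1, aeval_rename]
    have : x1 ∘ σ.symm = x := by
      funext i
      simp only [hx1, Function.comp_apply, Equiv.apply_symm_apply]
    rw [this]
    exact hx
  have hz1n : ∃ b, z1 b ≠ 0 := by
    refine ⟨Fin.castAdd (m + 1) 0, fun h => ?_⟩
    exact X_ne_zero _ (hz1g 1 (X (Fin.castAdd (m + 1) 0)) (isHomogeneous_X _ _)
      (by rw [aeval_X, h]))
  have hz2n : ∃ b, tp U z1 b ≠ 0 := by
    refine ⟨Fin.castAdd (m + 1) 0, fun h => ?_⟩
    exact X_ne_zero _ (hz2g 1 (X (Fin.castAdd (m + 1) 0)) (isHomogeneous_X _ _)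
      (by rw [aeval_X, h]))
  have hr1 : ratioField z1 = ratioField z := by
    have h1 := ratioField_perm σ.symm z
    simpa only [Equiv.symm_symm] using h1
  have hr2 : ratioField (tp U z1) = ratioField z1 := ratioField_tp U z1 hz1n hz2n
  have hxz : ∀ j, tp U x1 (Fin.natAdd (k + 1) j) = tp U z1 (Fin.natAdd (k + 1) j) := by
    intro j
    unfold tp
    rw [Fin.append_right, Fin.append_right]
    simp only [hx1, hz1, hw, hU, map_sum, map_mul, mul_add, Finset.sum_add_distrib,
      Finset.mul_sum]
    rw [sub_eq_sub_iff_add_eq_add]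
    have h1 : ∑ l : Fin P, ∑ i : Fin (k + 1), w l * (algebraMap ℂ E (U i j) *
        algebraMap ℂ E (A (σ (Fin.castAdd (m + 1) i)) l)) =
        ∑ i : Fin (k + 1), ∑ l : Fin P, algebraMap ℂ E (U i j) *
          (w l * algebraMap ℂ E (A (σ (Fin.castAdd (m + 1) i)) l)) := by
      rw [Finset.sum_comm]
      refine Finset.sum_congr rfl fun i _ => Finset.sum_congr rfl fun l _ => ?_
      ring
    rw [h1]
    ring
  have hiso : Iso F2 := iso_of_odd spr desc (shear_hom hF1h U) hW (tp U x1) (tp U z1)
    (by rw [hF2, aeval_tp]; exact hx1F) hz2g hxz (by rw [hr2, hr1]; exact hodd)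
  exact ⟨k, m, σ, U, hW, hiso⟩

end

end Pool.Agent.Run7.h141.CE
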