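import Mathlib
import Pool.Agent.TH314.PD.Core2
import Pool.Agent.H952R2.Sextic.CommonZero

/-! # Cubic maps of odd index: base points, few variables, expansions -/

set_option autoImplicit false

namespace Pool.Agent.Run7.h141.CE

open MvPolynomial Pool.Agent.TH314.PD Module

noncomputable section

theorem eval_zero_form {σ : Type} {P : MvPolynomial σ ℂ} {d : ℕ} (hP : P.IsHomogeneous d)
    (hd : 1 ≤ d) : eval 0 P = 0 := by
  rw [MvPolynomial.eval_zero]
  refine hP.coeff_eq_zero ?_
  rw [map_zero]
  omega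

/-- many variables: there is a base point -/
theorem base_point {n N d : ℕ} (hd : 1 ≤ d) (hN : n + 2 ≤ N) {F : MvPolynomial (Fin (n + 2)) ℂ}
    (hF : F.IsHomogeneous 3) (hF0 : F ≠ 0) (H : Fin (n + 2) → MvPolynomial (Fin N) ℂ)
    (hH : ∀ i, (H i).IsHomogeneous d) (hHF : aeval H F = 0) :
    ∃ b : Fin N → ℂ, b ≠ 0 ∧ ∀ i, eval b (H i) = 0 := by
  classical
  obtain ⟨p, hp⟩ : ∃ p : Fin (n + 2) → ℂ, eval p F ≠ 0 := by
    by_contra h
    push Not at h
    exact hF0 (MvPolynomial.funext fun p => by rw [h p, map_zero])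
  have hp0 : p ≠ 0 := by
    rintro rfl
    exact hp (eval_zero_form hF (by norm_num))
  obtain ⟨j, hj⟩ := Function.ne_iff.1 hp0
  rw [Pi.zero_apply] at hj
  obtain ⟨z, hz0, hz⟩ := Pool.Agent.H952R2.Sextic.exists_common_zero (K := ℂ) (ι := Fin N)
    (κ := Fin (n + 1)) (by rw [Fintype.card_fin, Fintype.card_fin]; omega)
    (fun l => H (j.succAbove l) * C (p j) - H j * C (p (j.succAbove l))) (fun l => by
      rw [map_sub, map_mul, map_mul, eval_zero_form (hH _) hd, eval_zero_form (hH _) hd]
      ring)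
  refine ⟨z, hz0, ?_⟩
  set c : ℂ := eval z (H j) / p j with hc
  have h1 : ∀ i, eval z (H i) = c * p i := by
    intro i
    rcases Fin.eq_self_or_eq_succAbove j i with h | ⟨l, rfl⟩
    · rw [h, hc]
      field_simp
    · have h2 := hz l
      rw [map_sub, map_mul, map_mul, eval_C, eval_C] at h2
      rw [hc]
      field_simp
      linear_combination h2
  have h2 : eval z (aeval H F) = c ^ 3 * eval p F := by
    have h3 := comp_aeval_apply (f := H) (aeval z : MvPolynomial (Fin N) ℂ →ₐ[ℂ] ℂ) F
    rw [aeval_eq_eval] at h3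
    rw [h3]
    have h4 : (fun i => eval z (H i)) = fun i => c * p i := funext h1
    have h5 : (fun i => (eval z : MvPolynomial (Fin N) ℂ → ℂ) (H i)) = fun i => c * p i := h4
    rw [h5, aeval_smul_form hF, aeval_eq_eval]
  rw [hHF, map_zero] at h2
  have h3 : c = 0 := by
    have h4 := (mul_eq_zero.1 h2.symm).resolve_right hp
    exact pow_eq_zero_iff (by norm_num) |>.1 h4
  intro i
  rw [h1 i, h3, zero_mul]

/-- expansion of a form in the powers of the first variable -/
theorem expand {R : Type} [CommRing R] [Algebra ℂ R] {N : ℕ} (P : MvPolynomial (Fin (N + 1)) ℂ)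
    {d : ℕ} (hP : P.IsHomogeneous d) (s : R) (z : Fin N → R) :
    aeval (Fin.cons s z : Fin (N + 1) → R) P =
      ∑ k ∈ Finset.range (d + 1), aeval z ((finSuccEquiv ℂ N P).coeff k) * s ^ k := by
  have h1 : ∀ Q : MvPolynomial (Fin (N + 1)) ℂ, aeval (Fin.cons s z : Fin (N + 1) → R) Q =
      (finSuccEquiv ℂ N Q).eval₂ ((aeval z : MvPolynomial (Fin N) ℂ →ₐ[ℂ] R) :
        MvPolynomial (Fin N) ℂ →+* R) s := by
    intro Q
    induction Q using MvPolynomial.induction_on with
    | C a =>
      have h2 : finSuccEquiv ℂ N (C a) = Polynomial.C (C a) := by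
        rw [finSuccEquiv_apply]
        simp
      rw [h2, Polynomial.eval₂_C, aeval_C]
      simp
    | add p q hp hq => rw [map_add, map_add, Polynomial.eval₂_add, hp, hq]
    | mul_X p i hp =>
      rw [map_mul, map_mul, Polynomial.eval₂_mul, hp, aeval_X]
      congr 1
      refine Fin.cases ?_ (fun l => ?_) i
      · rw [Fin.cons_zero, finSuccEquiv_X_zero, Polynomial.eval₂_X]
      · rw [Fin.cons_succ, finSuccEquiv_X_succ, Polynomial.eval₂_C]
        simp
  rw [h1, Polynomial.eval₂_eq_sum_range' (n := d + 1)]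
  · rfl
  · rw [natDegree_finSuccEquiv]
    exact Nat.lt_succ_of_le ((degreeOf_le_totalDegree _ _).trans hP.totalDegree_le)

/-- the coefficients are forms -/
theorem coeff_hom {N d k l : ℕ} {P : MvPolynomial (Fin (N + 1)) ℂ} (hP : P.IsHomogeneous d)
    (h : k + l = d) : ((finSuccEquiv ℂ N P).coeff k).IsHomogeneous l :=
  hP.finSuccEquiv_coeff_isHomogeneous k l h

/-- the top coefficient vanishes for a form which vanishes at the first point -/
theorem coeff_top {N d : ℕ} {P : MvPolynomial (Fin (N + 1)) ℂ} (hP : P.IsHomogeneous d)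
    (h : eval (Fin.cons 1 0 : Fin (N + 1) → ℂ) P = 0) : (finSuccEquiv ℂ N P).coeff d = 0 := by
  have h1 := expand P hP (1 : ℂ) (0 : Fin N → ℂ)
  rw [aeval_eq_eval, h] at h1
  have h2 := coeff_hom hP (show d + 0 = d by omega)
  have h3 : (finSuccEquiv ℂ N P).coeff d = C (coeff 0 ((finSuccEquiv ℂ N P).coeff d)) := by
    apply MvPolynomial.ext
    intro m
    rw [coeff_C]
    by_cases hm : 0 = m
    · rw [if_pos hm, ← hm]
    · rw [if_neg hm]
      refine h2.coeff_eq_zero ?_
      intro h4
      exact hm ((Finsupp.degree_eq_zero_iff m).1 h4).symm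
  rw [Finset.sum_range_succ, Finset.sum_eq_zero] at h1
  · rw [h3, aeval_C] at h1
    rw [h3]
    simp only [one_pow, mul_one, zero_add, Algebra.algebraMap_self, RingHom.id_apply] at h1
    rw [← h1, map_zero]
  · intro k hk
    rw [Finset.mem_range] at hk
    have h4 : aeval (0 : Fin N → ℂ) ((finSuccEquiv ℂ N P).coeff k) = 0 := by
      rw [aeval_eq_eval]
      exact eval_zero_form (coeff_hom hP (show k + (d - k) = d by omega)) (by omega)
    rw [h4, zero_mul]

theorem deg_one {N : ℕ} {m : Fin N →₀ ℕ} (h : m.degree = 1) : ∃ l, m = Finsupp.single l 1 := by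
  classical
  have h1 : m ≠ 0 := by
    rintro rfl
    simp at h
  obtain ⟨l, hl⟩ := Finsupp.ne_iff.1 h1
  rw [Finsupp.zero_apply] at hl
  refine ⟨l, ?_⟩
  have h2 : Finsupp.single l 1 ≤ m := by
    rw [Finsupp.single_le_iff]
    omega
  obtain ⟨m', rfl⟩ := exists_add_of_le h2
  rw [map_add, Finsupp.degree_single] at h
  have h3 : m'.degree = 0 := by omega
  rw [(Finsupp.degree_eq_zero_iff m').1 h3, add_zero]

/-- linear forms -/
theorem linear_form {N : ℕ} {P : MvPolynomial (Fin N) ℂ} (hP : P.IsHomogeneous 1)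
    {R : Type} [CommRing R] [Algebra ℂ R] (z : Fin N → R) :
    aeval z P = ∑ l, z l * algebraMap ℂ R (coeff (Finsupp.single l 1) P) := by
  classical
  have h1 : P = ∑ l, C (coeff (Finsupp.single l 1) P) * X l := by
    apply MvPolynomial.ext
    intro m
    rw [coeff_sum]
    simp only [coeff_C_mul, coeff_X]
    by_cases hm : m.degree = 1
    · obtain ⟨l, rfl⟩ := deg_one hm
      rw [Finset.sum_eq_single l]
      · simp
      · intro l' _ hl'
        rw [if_neg, mul_zero]
        intro h
        exact hl' (Finsupp.single_left_injective one_ne_zero h)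
      · intro h
        exact absurd (Finset.mem_univ l) h
    · rw [hP.coeff_eq_zero hm]
      symm
      refine Finset.sum_eq_zero fun l _ => ?_
      rw [if_neg, mul_zero]
      rintro rfl
      apply hm
      simp
  conv_lhs => rw [h1]
  rw [map_sum]
  refine Finset.sum_congr rfl fun l _ => ?_
  rw [map_mul, aeval_C, aeval_X, mul_comm]

end

end Pool.Agent.Run7.h141.CE
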