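import Mathlib
import Pool.Agent.R845.E3.All
import Pool.Agent.Run7.h141.CE.Red

/-! # Cubic maps of odd index: few variables -/

set_option autoImplicit false

namespace Pool.Agent.Run7.h141.CE

open MvPolynomial Pool.Agent.TH314.PD Module Pool.Agent.R845.E3
open Pool.Agent.R845.T2

noncomputable section

variable {M : Type} [Field M] [Algebra ℂ M]

theorem aeval_mem_adjoin {ι : Type} (v : ι → M) (P : MvPolynomial ι ℂ) :
    aeval v P ∈ IntermediateField.adjoin ℂ (Set.range v) := by
  have h1 : aeval v P ∈ Algebra.adjoin ℂ (Set.range v) := by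
    rw [Algebra.adjoin_range_eq_range_aeval]
    exact ⟨P, rfl⟩
  exact IntermediateField.algebra_adjoin_le_adjoin ℂ _ h1

theorem cons_eq_sub {n : ℕ} : (Fin.cons 1 X : Fin (n + 1) → MvPolynomial (Fin n) ℂ) =
      Pool.Agent.TH314.PD.sub (Fin.cons 1 0) (Fin.cons 0 fun l s => if l = s then 1 else 0) := by
  classical
  funext j
  unfold Pool.Agent.TH314.PD.sub
  refine Fin.cases ?_ (fun l => ?_) j
  · simp
  · simp

/-- dehomogenization of a form of degree at most three -/
theorem dehom_deg {n d : ℕ} (hd : d ≤ 3) {P : MvPolynomial (Fin (n + 1)) ℂ}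
    (hP : P.IsHomogeneous d) :
    (aeval (Fin.cons 1 X : Fin (n + 1) → MvPolynomial (Fin n) ℂ) P).totalDegree ≤ 3 := by
  classical
  rw [cons_eq_sub]
  exact Pool.Agent.TH314.PD.aeval_sub_deg _ _ P (hP.totalDegree_le.trans hd)

theorem dehom_deg2 {n d : ℕ} (hd : d ≤ 2) {P : MvPolynomial (Fin (n + 1)) ℂ}
    (hP : P.IsHomogeneous d) :
    (aeval (Fin.cons 1 X : Fin (n + 1) → MvPolynomial (Fin n) ℂ) P).totalDegree ≤ 2 := by
  classical
  rw [cons_eq_sub]
  exact Pool.Agent.TH314.PD.aeval_sub_deg _ _ P (hP.totalDegree_le.trans hd)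

/-- forms in at most `n + 1` variables which give a dominant point have a base point -/
theorem few_base {n : ℕ} (hn : 1 ≤ n)
    {F : MvPolynomial (Fin (n + 2)) ℂ} (hF : F.IsHomogeneous 3) (hsm : Sm F)
    {d N : ℕ} (hd : d ≤ 3) (hN : N ≤ n) (H : Fin (n + 2) → MvPolynomial (Fin (N + 1)) ℂ)
    (hH : ∀ i, (H i).IsHomogeneous d) (hHF : aeval H F = 0) (y : Fin (N + 1) → M) (hy0 : y 0 ≠ 0)
    (hG : Gp F (fun i => aeval y (H i)))
    (hfin : FiniteDimensional (ratioField fun i => aeval y (H i)) M) :
    ∃ b : Fin (N + 1) → ℂ, b ≠ 0 ∧ ∀ i, eval b (H i) = 0 := by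
  classical
  set x : Fin (n + 2) → M := fun i => aeval y (H i) with hx
  have hF0 : F ≠ 0 := ne_zero_of_smooth (m := n + 1) hsm
  set G : Fin (n + 2) → MvPolynomial (Fin N) ℂ := fun i =>
    aeval (Fin.cons 1 X : Fin (N + 1) → MvPolynomial (Fin N) ℂ) (H i) with hGd
  set v : Fin N → M := fun l => y l.succ / y 0 with hv
  have hxG : ∀ i, x i = y 0 ^ d * aeval v (G i) := by
    intro i
    have h1 : y = fun j => y 0 * (Fin.cons 1 v : Fin (N + 1) → M) j := by
      funext j
      refine Fin.cases ?_ (fun l => ?_) j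
      · rw [Fin.cons_zero, mul_one]
      · rw [Fin.cons_succ, hv]
        field_simp
    have h2 : aeval v (G i) = aeval (Fin.cons 1 v : Fin (N + 1) → M) (H i) := by
      rw [hGd]
      simp only
      rw [comp_aeval_apply]
      congr 2
      funext j
      refine Fin.cases ?_ (fun l => ?_) j
      · rw [Fin.cons_zero, Fin.cons_zero, map_one]
      · rw [Fin.cons_succ, Fin.cons_succ, aeval_X]
    rw [h2, hx]
    simp only
    conv_lhs => rw [h1]
    exact aeval_smul_form (hH i) _ _
  have hpow : y 0 ^ d ≠ 0 := pow_ne_zero _ hy0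
  -- the ratios of `x` are rational functions of `v`
  have hle : ratioField x ≤ IntermediateField.adjoin ℂ (Set.range v) := by
    unfold ratioField
    rw [IntermediateField.adjoin_le_iff]
    rintro _ ⟨i, j, rfl⟩
    have h1 : x i / x j = aeval v (G i) / aeval v (G j) := by
      rw [hxG, hxG, mul_div_mul_left _ _ hpow]
    rw [h1]
    exact div_mem (aeval_mem_adjoin v _) (aeval_mem_adjoin v _)
  have halg : Algebra.IsAlgebraic (IntermediateField.adjoin ℂ (Set.range v)) M := by
    letI : Algebra (ratioField x) (IntermediateField.adjoin ℂ (Set.range v)) :=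
      (IntermediateField.inclusion hle).toRingHom.toAlgebra
    haveI : IsScalarTower (ratioField x) (IntermediateField.adjoin ℂ (Set.range v)) M :=
      IsScalarTower.of_algebraMap_eq fun _ => rfl
    haveI : Algebra.IsAlgebraic (ratioField x) M := inferInstance
    exact Algebra.IsAlgebraic.tower_top (K := ratioField x) _
  have halg' := IntermediateField.isAlgebraic_adjoin_iff_top.1 halg
  have htr : (n : Cardinal) ≤ Algebra.trdeg ℂ M := by
    obtain ⟨u, hu, -⟩ := exists_indep (x := x) hF (by norm_num) hF0 hG.2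
    have h1 := hu.cardinalMk_le_trdeg
    simpa using h1
  have htr2 : Algebra.trdeg ℂ M ≤ N := by
    have h1 := Algebra.IsAlgebraic.trdeg_le_cardinalMk ℂ (Set.range v)
    refine h1.trans ?_
    refine Cardinal.mk_range_le.trans ?_
    simp
  have hNn : N = n := by
    have h1 : (n : Cardinal) ≤ N := htr.trans htr2
    have h2 : n ≤ N := by exact_mod_cast h1
    omega
  subst hNn
  have hvi : AlgebraicIndependent ℂ v :=
    (Algebra.IsAlgebraic.isTranscendenceBasis_of_le_trdeg_of_finite ℂ v
      (by simpa using htr)).1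
  -- the embedding of the field of rational functions
  have hinj : Function.Injective (aeval v : MvPolynomial (Fin N) ℂ →ₐ[ℂ] M) := hvi
  have hGF : aeval G F = 0 := by
    have h1 := comp_aeval_apply (f := H)
      (aeval (Fin.cons 1 X : Fin (N + 1) → MvPolynomial (Fin N) ℂ)) F
    rw [hHF, map_zero] at h1
    exact h1.symm
  have hdom : ∀ e (P : MvPolynomial (Fin (N + 2)) ℂ), P.IsHomogeneous e → aeval G P = 0 →
      F ∣ P := by
    intro e P hP h0
    refine hG.2 e P hP ?_
    have h1 : x = fun i => y 0 ^ d * aeval v (G i) := funext hxG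
    have h2 : aeval (fun i => aeval v (G i)) P = 0 := by
      rw [← comp_aeval_apply, h0, map_zero]
    change aeval x P = 0
    rw [h1, aeval_smul_form hP, h2, mul_zero]
  have hpos : 0 < finrank (ratioField fun i =>
      algebraMap (MvPolynomial (Fin N) ℂ) (Rn N) (G i)) (Rn N) := by
    obtain ⟨h1, -⟩ := bound (k := 3) (by norm_num) F hF hsm G (fun i => dehom_deg hd (hH i))
      hGF hdom
    exact Module.finrank_pos
  by_cases hd2 : d ≤ 2
  · exfalso
    obtain ⟨-, h1⟩ := bound (k := 2) (by norm_num) F hF hsm G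
      (fun i => dehom_deg2 hd2 (hH i)) hGF hdom
    have h2 : finrank (ratioField fun i =>
      algebraMap (MvPolynomial (Fin N) ℂ) (Rn N) (G i)) (Rn N) * (3 * 2 ^ N) ≤ (N + 1) * 1 := by
      have h3 : (2 - 1 : ℕ) ^ N = 1 := one_pow N
      rw [h3] at h1
      exact h1
    have h3 : N < 2 ^ N := Nat.lt_two_pow_self
    nlinarith
  · have hd3 : d = 3 := by omega
    subst hd3
    by_contra hcon
    push Not at hcon
    obtain ⟨hfd, h1⟩ := bound (k := 3) (by norm_num) F hF hsm G
      (fun i => dehom_deg hd (hH i)) hGF hdom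
    have h2 : 3 * finrank (ratioField fun i =>
      algebraMap (MvPolynomial (Fin N) ℂ) (Rn N) (G i)) (Rn N) ≤ N + 1 := by
      have h3 : finrank (ratioField fun i =>
        algebraMap (MvPolynomial (Fin N) ℂ) (Rn N) (G i)) (Rn N) * (3 * 2 ^ N) ≤
          (N + 1) * 2 ^ N := h1
      rw [← mul_assoc] at h3
      have h4 := Nat.le_of_mul_le_mul_right h3 (by positivity)
      omega
    have hdh : dh H = fun i => algebraMap (MvPolynomial (Fin N) ℂ) (Rn N) (G i) := rfl
    have h3 := bas N F hF hF0 H hH (fun b hb => by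
      by_contra hb0
      obtain ⟨i, hi⟩ := hcon b hb0
      exact hi (hb i)) hHF (by rw [hdh]; exact hfd)
    rw [hdh] at h3
    have h4 := pow_gt N (by omega)
    omega

end

end Pool.Agent.Run7.h141.CE
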