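import Mathlib
import Pool.Agent.Run7.h141.CE.Core
import Pool.Agent.Run7.h141.CE.IsoG
import Pool.Agent.Run7.h141.CE.Red
import Pool.Agent.Run7.h141.CE.Top

/-! # Cubic maps of odd index: the induction -/

set_option autoImplicit false

namespace Pool.Agent.Run7.h141.CE

open MvPolynomial Pool.Agent.TH314.PD Module Pool.Agent.Y201.C3 Pool.Agent.R845.E3
open Pool.Agent.R845.T2

noncomputable section

variable {M : Type} [Field M] [Algebra ℂ M]

/-- multiples of a generic point -/
theorem scale {n : ℕ} {F : MvPolynomial (Fin n) ℂ} (hF : F.IsHomogeneous 3) {x : Fin n → M}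
    (hx : Gp F x) {μ : M} (hμ : μ ≠ 0) :
    Gp F (fun i => μ * x i) ∧ ratioField (fun i => μ * x i) = ratioField x := by
  refine ⟨⟨by rw [aeval_smul_form hF, hx.1, mul_zero], fun e P hP h0 => ?_⟩, ?_⟩
  · rw [aeval_smul_form hP] at h0
    exact hx.2 e P hP ((mul_eq_zero.1 h0).resolve_left (pow_ne_zero _ hμ))
  · have h1 : (fun i => (fun i => μ * x i) i / μ) = x := by
      funext i
      simp only
      rw [mul_div_cancel_left₀ _ hμ]
    conv_rhs => rw [← h1]
    rw [Pool.Agent.Y929.LI.ratioField_div _ hμ]

/-- a generic point satisfies no linear equation -/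
theorem gp_lin {n : ℕ} {F : MvPolynomial (Fin n) ℂ} (hF : F.IsHomogeneous 3) (hF0 : F ≠ 0)
    {x : Fin n → M} (hx : Gp F x) (q : Fin n → ℂ) (hq : q ≠ 0)
    (h : ∑ i, algebraMap ℂ M (q i) * x i = 0) : False := by
  classical
  set L : MvPolynomial (Fin n) ℂ := ∑ i, C (q i) * X i with hL
  have hLh : L.IsHomogeneous 1 := hom_comb q fun i => isHomogeneous_X _ i
  have h1 : aeval x L = 0 := by
    rw [hL, map_sum, ← h]
    refine Finset.sum_congr rfl fun i _ => ?_
    rw [map_mul, aeval_C, aeval_X]
  have h2 := eq_zero_of_dvd hF hF0 hLh (by norm_num) (hx.2 1 L hLh h1)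
  apply hq
  funext j
  have h3 := congrArg (eval (Pi.single j (1 : ℂ))) h2
  rw [hL, map_sum, map_zero] at h3
  simp only [map_mul, eval_C, eval_X] at h3
  rw [Finset.sum_eq_single j] at h3
  · rw [Pi.single_eq_same, mul_one] at h3
    exact h3
  · intro i _ hi
    rw [Pi.single_eq_of_ne hi, mul_zero]
  · intro h4
    exact absurd (Finset.mem_univ j) h4

/-- a linear system of points of the cubic satisfies a linear equation -/
theorem exists_eq {n P : ℕ} {F : MvPolynomial (Fin n) ℂ} (hF0 : F ≠ 0)
    (A : Fin n → Fin P → ℂ) (hA : ∀ a : Fin P → ℂ, eval (fun i => ∑ l, a l * A i l) F = 0) :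
    ∃ q : Fin n → ℂ, q ≠ 0 ∧ ∀ l, ∑ i, q i * A i l = 0 := by
  classical
  let W : Submodule ℂ (Fin n → ℂ) := Submodule.span ℂ (Set.range fun l : Fin P => fun i => A i l)
  have hW : W < ⊤ := by
    rw [lt_top_iff_ne_top]
    intro h
    apply hF0
    apply MvPolynomial.funext
    intro u
    have h1 : u ∈ W := by
      rw [h]
      exact Submodule.mem_top
    obtain ⟨a, ha⟩ := (Submodule.mem_span_range_iff_exists_fun ℂ).1 h1
    rw [map_zero, ← hA a]
    congr 2
    funext i
    rw [← ha, Finset.sum_apply]
    rfl
  obtain ⟨f, hf0, hf⟩ := Submodule.exists_le_ker_of_lt_top W hW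
  refine ⟨fun i => f (Pi.single i 1), ?_, fun l => ?_⟩
  · intro h
    apply hf0
    apply LinearMap.pi_ext'
    intro i
    apply LinearMap.ext_ring
    exact congrFun h i
  · have h1 : (fun i => A i l) ∈ W := Submodule.subset_span ⟨l, rfl⟩
    have h2 : f (fun i => A i l) = 0 := hf h1
    have h3 : (fun i => A i l) = ∑ i, A i l • (Pi.single i (1 : ℂ) : Fin n → ℂ) := by
      funext j
      rw [Finset.sum_apply, Finset.sum_eq_single j]
      · simp
      · intro i _ hi
        rw [Pi.smul_apply, Pi.single_eq_of_ne (Ne.symm hi), smul_zero]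
      · intro h4
        exact absurd (Finset.mem_univ j) h4
    rw [h3, map_sum] at h2
    rw [← h2]
    refine Finset.sum_congr rfl fun i _ => ?_
    rw [map_smul, smul_eq_mul, mul_comm]

variable {n : ℕ} {F : MvPolynomial (Fin (n + 2)) ℂ}

/-- conics over `M` which meet a linear subspace in a point over `M` -/
theorem conicM (hF : F.IsHomogeneous 3) (hsm : Sm F)
    {P : ℕ} (A : Fin (n + 2) → Fin P → ℂ)
    (hA : ∀ a : Fin P → ℂ, eval (fun i => ∑ l, a l * A i l) F = 0)
    (t : M) (w : Fin P → M) (a β γ : Fin (n + 2) → M)
    (ha : a = fun i => ∑ l, w l * algebraMap ℂ M (A i l)) (ha0 : a ≠ 0)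
    (hcurve : ∀ s : M, aeval (xs a β γ s) F = 0) (hG : Gp F (xs a β γ t)) :
    Odd (finrank (ratioField (xs a β γ t)) M) → Sect F := by
  classical
  intro hodd
  have hF0 : F ≠ 0 := ne_zero_of_smooth (m := n + 1) hsm
  obtain ⟨q, hq0, hq⟩ := exists_eq hF0 A hA
  have hqa : ∑ i, algebraMap ℂ M (q i) * a i = 0 := by
    rw [ha]
    simp only [Finset.mul_sum]
    rw [Finset.sum_comm]
    refine Finset.sum_eq_zero fun l _ => ?_
    have h1 : ∑ i, algebraMap ℂ M (q i) * (w l * algebraMap ℂ M (A i l)) =
        w l * algebraMap ℂ M (∑ i, q i * A i l) := by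
      rw [map_sum, Finset.mul_sum]
      refine Finset.sum_congr rfl fun i _ => ?_
      rw [map_mul]
      ring
    rw [h1, hq l, map_zero, mul_zero]
  have hna : ¬ Gp F a := fun h => gp_lin hF hF0 h q hq0 hqa
  have hA0 : A ≠ 0 := by
    rintro rfl
    apply ha0
    rw [ha]
    funext i
    simp
  have hxa : LinearIndependent M ![xs a β γ t, a] := by
    rw [LinearIndependent.pair_iff]
    intro s r hsr
    have hs : s = 0 := by
      by_contra hs
      refine gp_lin hF hF0 hG q hq0 ?_
      have h1 : ∑ i, algebraMap ℂ M (q i) * (s * xs a β γ t i + r * a i) = 0 := by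
        refine Finset.sum_eq_zero fun i _ => ?_
        have h2 := congrFun hsr i
        simp only [Pi.add_apply, Pi.smul_apply, smul_eq_mul, Pi.zero_apply] at h2
        rw [h2, mul_zero]
      have h2 : ∑ i, algebraMap ℂ M (q i) * (s * xs a β γ t i + r * a i) =
          s * ∑ i, algebraMap ℂ M (q i) * xs a β γ t i +
            r * ∑ i, algebraMap ℂ M (q i) * a i := by
        rw [Finset.mul_sum, Finset.mul_sum, ← Finset.sum_add_distrib]
        refine Finset.sum_congr rfl fun i _ => ?_
        ring
      rw [h2, hqa, mul_zero, add_zero] at h1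
      exact (mul_eq_zero.1 h1).resolve_left hs
    refine ⟨hs, ?_⟩
    rw [hs, zero_smul, zero_add] at hsr
    exact (smul_eq_zero.1 hsr).resolve_right ha0
  obtain ⟨hgen, hoddE⟩ := coreM hF hsm t a β γ hcurve hG hodd hna hxa
  refine iso_gen hF hsm A hA0 hA
    (fun j => algebraMap (Polynomial M) (FractionRing (Polynomial M))
      (Polynomial.C (xs a β γ t j)))
    (fun j => algebraMap (Polynomial M) (FractionRing (Polynomial M))
      (Polynomial.C (xs a β γ t j) + Polynomial.X * Polynomial.C (a j))) ?_ hgen
    (fun l => algebraMap (Polynomial M) (FractionRing (Polynomial M))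
      (Polynomial.X * Polynomial.C (w l))) ?_ hoddE
  · have h1 := comp_aeval_apply (f := xs a β γ t) ((IsScalarTower.toAlgHom ℂ (Polynomial M)
      (FractionRing (Polynomial M))).comp (Polynomial.CAlgHom : M →ₐ[ℂ] Polynomial M)) F
    rw [hG.1, map_zero] at h1
    exact h1.symm
  · intro i
    rw [map_add]
    congr 1
    have h1 : ∀ c : ℂ, algebraMap ℂ (FractionRing (Polynomial M)) c =
        algebraMap (Polynomial M) (FractionRing (Polynomial M))
          (Polynomial.C (algebraMap ℂ M c)) := by
      intro c
      rw [IsScalarTower.algebraMap_apply ℂ (Polynomial M) (FractionRing (Polynomial M)),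
        Polynomial.algebraMap_apply]
    simp only [h1, ← map_mul, ← map_sum]
    congr 1
    rw [ha]
    simp only [map_sum, Finset.mul_sum, map_mul]
    refine Finset.sum_congr rfl fun l _ => ?_
    ring

/-- the statement of the induction: forms of degree `d` in `N` variables -/
def Stm (F : MvPolynomial (Fin (n + 2)) ℂ) (N d : ℕ) : Prop :=
  ∀ H : Fin (n + 2) → MvPolynomial (Fin N) ℂ, (∀ i, (H i).IsHomogeneous d) → aeval H F = 0 →
    ∀ (M : Type) [Field M] [Algebra ℂ M] (y : Fin N → M), Gp F (fun i => aeval y (H i)) →
      Odd (finrank (ratioField fun i => aeval y (H i)) M) → Sect F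

/-- lines -/
theorem line_case (hF : F.IsHomogeneous 3) (hsm : Sm F) {N d1 d2 : ℕ} (h1 : Stm F N d1)
    (h2 : Stm F N d2) (B D : Fin (n + 2) → MvPolynomial (Fin N) ℂ)
    (hB : ∀ i, (B i).IsHomogeneous d1) (hD : ∀ i, (D i).IsHomogeneous d2)
    (hBD : ∀ (R : Type) [CommRing R] [Algebra ℂ R] (s : R) (z : Fin N → R),
      aeval (fun i => s * aeval z (B i) + aeval z (D i)) F = 0)
    (t : M) (z : Fin N → M) (x : Fin (n + 2) → M)
    (hx : x = fun i => t * aeval z (B i) + aeval z (D i)) (hG : Gp F x) :
    Odd (finrank (ratioField x) M) → Sect F := by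
  classical
  intro hodd
  have hodd2 : ¬ 2 ∣ finrank (ratioField x) M := fun h =>
    (Nat.not_even_iff_odd.2 hodd) (even_iff_two_dvd.2 h)
  obtain ⟨T, hT, hFT⟩ := exists_tri F hF
  -- the cubic vanishes at `D`
  have hFD : aeval D F = 0 := by
    apply MvPolynomial.funext
    intro z0
    rw [map_zero, ← aeval_eq_eval, comp_aeval_apply]
    have h3 := hBD ℂ 0 z0
    simp only [zero_mul, zero_add] at h3
    exact h3
  have hFB : aeval B F = 0 := by
    apply MvPolynomial.funext
    intro z0
    rw [map_zero, ← aeval_eq_eval, comp_aeval_apply]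
    have hev : ∀ v : Fin (n + 2) → ℂ, aeval v F = Bg T v v v := by
      intro v
      conv_lhs => rw [hFT]
      exact aeval_frmG T v
    have h3 := rels (M := ℂ) hT (fun _ => 0) (fun i => aeval z0 (B i)) (fun i => aeval z0 (D i))
      (fun s => by
        rw [← hev]
        have h4 := hBD ℂ s z0
        have h5 : xs (fun _ => (0 : ℂ)) (fun i => aeval z0 (B i)) (fun i => aeval z0 (D i)) s =
            fun i => s * aeval z0 (B i) + aeval z0 (D i) := by
          funext i
          simp only [xs]
          ring
        rw [h5]
        exact h4)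
    have h4 := h3.2.2.2.1
    rw [Bg_zero1, mul_zero, zero_add] at h4
    rw [hev]
    exact h4
  set b : Fin (n + 2) → M := fun i => aeval z (B i) with hb
  set c : Fin (n + 2) → M := fun i => aeval z (D i) with hc
  by_cases hli : LinearIndependent M ![x, b]
  · refine (hodd2 (no_line hF hsm x b hG hli fun τ => ?_)).elim
    have h3 := hBD M (t + τ) z
    have h4 : (fun j => x j + τ * b j) = fun i => (t + τ) * aeval z (B i) + aeval z (D i) := by
      funext j
      rw [hx]
      simp only [hb]
      ring
    rw [h4]
    exact h3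
  · rw [LinearIndependent.pair_iff] at hli
    push Not at hli
    obtain ⟨p, q, hpq, hne⟩ := hli
    have hx0 : x ≠ 0 := by
      intro h
      exact coord_ne_zero hF (by norm_num) x hG.2 0 (by rw [h, Pi.zero_apply])
    have hq : q ≠ 0 := by
      rintro rfl
      rw [zero_smul, add_zero] at hpq
      exact hne ((smul_eq_zero.1 hpq).resolve_right hx0) rfl
    set μ : M := -(p / q) with hμ
    have hbx : b = fun i => μ * x i := by
      funext i
      have h3 := congrFun hpq i
      simp only [Pi.add_apply, Pi.smul_apply, smul_eq_mul, Pi.zero_apply] at h3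
      rw [hμ]
      field_simp
      linear_combination h3
    by_cases hμ0 : μ = 0
    · have h3 : c = x := by
        funext i
        have h4 := congrFun hx i
        have h5 := congrFun hbx i
        simp only [hb] at h5
        rw [h4, h5, hμ0]
        ring
      have h4 : Gp F c := by rw [h3]; exact hG
      exact h2 D hD hFD M z h4 (by
        have : (fun i => aeval z (D i)) = x := h3
        rw [this]
        exact hodd)
    · obtain ⟨h3, h4⟩ := scale hF hG hμ0
      rw [← hbx] at h3 h4
      exact h1 B hB hFB M z h3 (by
        have : ratioField (fun i => aeval z (B i)) = ratioField x := h4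
        rw [this]
        exact hodd)

theorem main_ind (hn : 1 ≤ n) (hF : F.IsHomogeneous 3) (hsm : Sm F) :
    ∀ (N d : ℕ), 1 ≤ d → d ≤ 3 → Stm F N d := by
  classical
  have hF0 : F ≠ 0 := ne_zero_of_smooth (m := n + 1) hsm
  intro N
  induction N with
  | zero =>
    intro d hd1 hd3 H hH hHF M _ _ y hG hodd
    have h1 := coord_ne_zero hF (by norm_num) _ hG.2 0
    refine (h1 ?_).elim
    have h2 : H 0 = 0 := MvPolynomial.funext fun z => by
      rw [Subsingleton.elim z 0, eval_zero_form (hH 0) hd1, map_zero]
    rw [h2, map_zero]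
  | succ N ih =>
    intro d hd1 hd3 H hH hHF M _ _ y hG hodd
    -- linear substitutions
    have hred : ∀ (q : Fin (N + 1) → MvPolynomial (Fin N) ℂ) (y' : Fin N → M),
        (∀ j, (q j).IsHomogeneous 1) → (∀ j, y j = aeval y' (q j)) → Sect F := by
      intro q y' hq hy
      have h1 : ∀ i, aeval y' (aeval q (H i)) = aeval y (H i) := by
        intro i
        rw [comp_aeval_apply]
        congr 2
        funext j
        exact (hy j).symm
      have he : (fun i => aeval y (H i)) = fun i => aeval y' (aeval q (H i)) :=
        funext fun i => (h1 i).symm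
      rw [he] at hG hodd
      refine ih d hd1 hd3 (fun i => aeval q (H i)) (fun i => ?_) ?_ M y' hG hodd
      · have h2 := (hH i).aeval q hq
        simpa using h2
      · rw [← comp_aeval_apply, hHF, map_zero]
    by_cases hli : LinearIndependent ℂ y
    swap
    · rw [Fintype.not_linearIndependent_iff] at hli
      obtain ⟨c, hc, j0, hj0⟩ := hli
      refine hred (j0.insertNth (∑ l, C (-(c (j0.succAbove l) / c j0)) * X l) X)
        (fun l => y (j0.succAbove l)) (fun j => ?_) (fun j => ?_)
      · rcases Fin.eq_self_or_eq_succAbove j0 j with h | ⟨l, rfl⟩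
        · rw [h, Fin.insertNth_apply_same]
          exact hom_comb _ fun i => isHomogeneous_X _ i
        · rw [Fin.insertNth_apply_succAbove]
          exact isHomogeneous_X _ _
      · rcases Fin.eq_self_or_eq_succAbove j0 j with h | ⟨l, rfl⟩
        · rw [h, Fin.insertNth_apply_same, map_sum]
          simp only [map_mul, aeval_C, aeval_X]
          rw [Fin.sum_univ_succAbove _ j0] at hc
          have hcM : algebraMap ℂ M (c j0) ≠ 0 := fun h0 =>
            hj0 ((map_eq_zero_iff _ (algebraMap ℂ M).injective).1 h0)
          apply mul_left_cancel₀ hcM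
          rw [Finset.mul_sum]
          have h2 : ∑ l, algebraMap ℂ M (c j0) * (algebraMap ℂ M (-(c (j0.succAbove l) / c j0)) *
              y (j0.succAbove l)) = -∑ l, c (j0.succAbove l) • y (j0.succAbove l) := by
            rw [← Finset.sum_neg_distrib]
            refine Finset.sum_congr rfl fun l _ => ?_
            rw [Algebra.smul_def, ← mul_assoc, ← map_mul, ← neg_mul, ← map_neg]
            congr 2
            field_simp
          rw [h2, ← Algebra.smul_def]
          exact eq_neg_of_add_eq_zero_left hc
        · rw [Fin.insertNth_apply_succAbove, aeval_X]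
    -- a base point
    have hy0 : y 0 ≠ 0 := hli.ne_zero 0
    obtain ⟨b, hb0, hbH⟩ : ∃ b : Fin (N + 1) → ℂ, b ≠ 0 ∧ ∀ i, eval b (H i) = 0 := by
      by_cases hN : N ≤ n
      · exact few_base hn hF hsm hd3 hN H hH hHF y hy0 hG
          (Module.finite_of_finrank_pos hodd.pos)
      · exact base_point hd1 (by omega) hF hF0 H hH hHF
    obtain ⟨j0, hj0⟩ := Function.ne_iff.1 hb0
    rw [Pi.zero_apply] at hj0
    have hj0M : algebraMap ℂ M (b j0) ≠ 0 := fun h0 =>
      hj0 ((map_eq_zero_iff _ (algebraMap ℂ M).injective).1 h0)
    set t : M := y j0 / algebraMap ℂ M (b j0) with ht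
    set z : Fin N → M := fun l => y (j0.succAbove l) - t * algebraMap ℂ M (b (j0.succAbove l))
      with hz
    set q : Fin (N + 1) → MvPolynomial (Fin (N + 1)) ℂ := fun j =>
      C (b j) * X 0 + (j0.insertNth 0 (fun l : Fin N => X l.succ) :
        Fin (N + 1) → MvPolynomial (Fin (N + 1)) ℂ) j with hq
    have hqh : ∀ j, (q j).IsHomogeneous 1 := by
      intro j
      rw [hq]
      refine IsHomogeneous.add ((isHomogeneous_X _ _).C_mul _) ?_
      rcases Fin.eq_self_or_eq_succAbove j0 j with h | ⟨l, rfl⟩
      · rw [h, Fin.insertNth_apply_same]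
        exact isHomogeneous_zero _ _ _
      · rw [Fin.insertNth_apply_succAbove]
        exact isHomogeneous_X _ _
    have hqy : ∀ j, aeval (Fin.cons t z : Fin (N + 1) → M) (q j) = y j := by
      intro j
      rw [hq]
      simp only
      rw [map_add, map_mul, aeval_C, aeval_X, Fin.cons_zero]
      rcases Fin.eq_self_or_eq_succAbove j0 j with h | ⟨l, rfl⟩
      · rw [h, Fin.insertNth_apply_same, map_zero, add_zero, ht]
        field_simp
      · rw [Fin.insertNth_apply_succAbove, aeval_X, Fin.cons_succ, hz]
        ring
    have hqe : ∀ j, eval (Fin.cons 1 0 : Fin (N + 1) → ℂ) (q j) = b j := by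
      intro j
      rw [hq]
      simp only
      rw [map_add, map_mul, eval_C, eval_X, Fin.cons_zero, mul_one]
      rcases Fin.eq_self_or_eq_succAbove j0 j with h | ⟨l, rfl⟩
      · rw [h, Fin.insertNth_apply_same, map_zero, add_zero]
      · rw [Fin.insertNth_apply_succAbove, eval_X, Fin.cons_succ, Pi.zero_apply, add_zero]
    set H' : Fin (n + 2) → MvPolynomial (Fin (N + 1)) ℂ := fun i => aeval q (H i) with hH'
    have hH'h : ∀ i, (H' i).IsHomogeneous d := by
      intro i
      have h2 := (hH i).aeval q hqh
      rw [one_mul] at h2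
      exact h2
    have hH'F : aeval H' F = 0 := by
      rw [hH', ← comp_aeval_apply, hHF, map_zero]
    have hH'y : ∀ i, aeval (Fin.cons t z : Fin (N + 1) → M) (H' i) = aeval y (H i) := by
      intro i
      rw [hH']
      simp only
      rw [comp_aeval_apply]
      congr 2
      funext j
      exact hqy j
    have hH'b : ∀ i, eval (Fin.cons 1 0 : Fin (N + 1) → ℂ) (H' i) = 0 := by
      intro i
      rw [← hbH i, ← aeval_eq_eval, hH']
      simp only
      rw [comp_aeval_apply, aeval_eq_eval]
      congr 2
      funext j
      rw [aeval_eq_eval]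
      exact hqe j
    set c : ℕ → Fin (n + 2) → MvPolynomial (Fin N) ℂ := fun k i =>
      (finSuccEquiv ℂ N (H' i)).coeff k with hc
    have hcd : ∀ i, c d i = 0 := fun i => coeff_top (hH'h i) (hH'b i)
    have hch : ∀ {k l : ℕ}, k + l = d → ∀ i, (c k i).IsHomogeneous l := fun h i =>
      coeff_hom (hH'h i) h
    have hR : ∀ (R : Type) [CommRing R] [Algebra ℂ R] (s : R) (z : Fin N → R),
        aeval (fun i => ∑ k ∈ Finset.range d, aeval z (c k i) * s ^ k) F = 0 := by
      intro R _ _ s z
      have h1 : (fun i => ∑ k ∈ Finset.range d, aeval z (c k i) * s ^ k) =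
          fun i => aeval (Fin.cons s z : Fin (N + 1) → R) (H' i) := by
        funext i
        rw [expand (H' i) (hH'h i) s z, Finset.sum_range_succ]
        have h2 : (finSuccEquiv ℂ N (H' i)).coeff d = 0 := hcd i
        rw [h2, map_zero, zero_mul, add_zero]
      rw [h1, ← comp_aeval_apply, hH'F, map_zero]
    have hxe : (fun i => aeval y (H i)) =
        fun i => ∑ k ∈ Finset.range d, aeval z (c k i) * t ^ k := by
      funext i
      rw [← hH'y, expand (H' i) (hH'h i) t z, Finset.sum_range_succ]
      have h2 : (finSuccEquiv ℂ N (H' i)).coeff d = 0 := hcd i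
      rw [h2, map_zero, zero_mul, add_zero]
    have hzli : LinearIndependent ℂ z := by
      rw [Fintype.linearIndependent_iff]
      intro g hg
      have h1 := (Fintype.linearIndependent_iff.1 hli)
        (j0.insertNth (-(∑ l, g l * b (j0.succAbove l)) / b j0) g) (by
          rw [Fin.sum_univ_succAbove _ j0, Fin.insertNth_apply_same]
          simp only [Fin.insertNth_apply_succAbove]
          have h2 : ∑ l, g l • z l = ∑ l, g l • y (j0.succAbove l) -
              t * algebraMap ℂ M (∑ l, g l * b (j0.succAbove l)) := by
            rw [map_sum, Finset.mul_sum, ← Finset.sum_sub_distrib]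
            refine Finset.sum_congr rfl fun l _ => ?_
            rw [hz, Algebra.smul_def, Algebra.smul_def, map_mul]
            ring
          rw [hg] at h2
          have h3 : (-(∑ l, g l * b (j0.succAbove l)) / b j0) • y j0 =
              -(t * algebraMap ℂ M (∑ l, g l * b (j0.succAbove l))) := by
            rw [Algebra.smul_def, map_div₀, map_neg, ht]
            ring
          rw [h3]
          linear_combination -h2)
      intro l
      have h2 := h1 (j0.succAbove l)
      rwa [Fin.insertNth_apply_succAbove] at h2
    have hd : d = 1 ∨ d = 2 ∨ d = 3 := by omega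
    rcases hd with rfl | rfl | rfl
    · -- linear forms
      have h1 : (fun i => aeval y (H i)) = fun i => aeval z (c 0 i) := by
        rw [hxe]
        funext i
        rw [Finset.sum_range_one, pow_zero, mul_one]
      rw [h1] at hG hodd
      refine ih 1 le_rfl hd3 (c 0) (hch rfl) ?_ M z hG hodd
      apply MvPolynomial.funext
      intro z0
      rw [map_zero, ← aeval_eq_eval, comp_aeval_apply]
      have h3 := hR ℂ 0 z0
      simp only [Finset.sum_range_one, pow_zero, mul_one] at h3
      exact h3
    · -- quadratic forms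
      refine line_case hF hsm (ih 1 le_rfl (by norm_num)) (ih 2 (by norm_num) (by norm_num))
        (c 1) (c 0) (hch rfl) (hch rfl) (fun R _ _ s z => ?_) t z _ ?_ hG hodd
      · have h3 := hR R s z
        rw [← h3]
        congr 2
        funext i
        rw [Finset.sum_range_succ, Finset.sum_range_one, pow_zero, mul_one, pow_one]
        ring
      · rw [hxe]
        funext i
        rw [Finset.sum_range_succ, Finset.sum_range_one, pow_zero, mul_one, pow_one]
        ring
    · -- cubic forms
      have h3R : ∀ (R : Type) [CommRing R] [Algebra ℂ R] (s : R) (z : Fin N → R),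
          aeval (fun i => s ^ 2 * aeval z (c 2 i) + s * aeval z (c 1 i) + aeval z (c 0 i)) F =
            0 := by
        intro R _ _ s z
        have h3 := hR R s z
        rw [← h3]
        congr 2
        funext i
        rw [Finset.sum_range_succ, Finset.sum_range_succ, Finset.sum_range_one, pow_zero,
          mul_one, pow_one]
        ring
      have hx3 : (fun i => aeval y (H i)) =
          fun i => t ^ 2 * aeval z (c 2 i) + t * aeval z (c 1 i) + aeval z (c 0 i) := by
        rw [hxe]
        funext i
        rw [Finset.sum_range_succ, Finset.sum_range_succ, Finset.sum_range_one, pow_zero,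
          mul_one, pow_one]
        ring
      have hc2 : ∀ i, (c 2 i).IsHomogeneous 1 := hch rfl
      set A : Fin (n + 2) → Fin N → ℂ := fun i l => coeff (Finsupp.single l 1) (c 2 i) with hAd
      by_cases hA0 : A = 0
      · have hz2 : ∀ (R : Type) [CommRing R] [Algebra ℂ R] (z : Fin N → R) (i : Fin (n + 2)),
            aeval z (c 2 i) = 0 := by
          intro R _ _ z i
          rw [linear_form (hc2 i)]
          refine Finset.sum_eq_zero fun l _ => ?_
          have h4 : coeff (Finsupp.single l 1) (c 2 i) = 0 := congrFun (congrFun hA0 i) l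
          rw [h4, map_zero, mul_zero]
        refine line_case hF hsm (ih 2 (by norm_num) (by norm_num))
          (ih 3 (by norm_num) (by norm_num))
          (c 1) (c 0) (hch rfl) (hch rfl) (fun R _ _ s z => ?_) t z _ ?_ hG hodd
        · have h3 := h3R R s z
          rw [← h3]
          congr 2
          funext i
          rw [hz2]
          ring
        · rw [hx3]
          funext i
          rw [hz2]
          ring
      · have hA : ∀ a : Fin N → ℂ, eval (fun i => ∑ l, a l * A i l) F = 0 := by
          intro a
          obtain ⟨T, hT, hFT⟩ := exists_tri F hF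
          have hev : ∀ v : Fin (n + 2) → ℂ, aeval v F = Bg T v v v := by
            intro v
            conv_lhs => rw [hFT]
            exact aeval_frmG T v
          have h4 := rels (M := ℂ) hT (fun i => aeval a (c 2 i)) (fun i => aeval a (c 1 i))
            (fun i => aeval a (c 0 i)) (fun s => by
              rw [← hev]
              exact h3R ℂ s a)
          have h5 := h4.2.2.2.2.2.2
          rw [← hev] at h5
          have h6 : (fun i => aeval a (c 2 i)) = fun i => ∑ l, a l * A i l := by
            funext i
            rw [linear_form (hc2 i)]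
            rfl
          rw [h6] at h5
          rw [← aeval_eq_eval]
          exact h5
        have ha0 : (fun i => aeval z (c 2 i)) ≠ 0 := by
          intro h0
          apply hA0
          funext i l
          have h4 := congrFun h0 i
          simp only [Pi.zero_apply] at h4
          rw [linear_form (hc2 i)] at h4
          have h5 := (Fintype.linearIndependent_iff.1 hzli) (fun l => A i l) (by
            rw [← h4]
            refine Finset.sum_congr rfl fun l _ => ?_
            rw [Algebra.smul_def, mul_comm])
          exact h5 l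
        have h4 : (fun i => aeval y (H i)) = xs (fun i => aeval z (c 2 i))
            (fun i => aeval z (c 1 i)) (fun i => aeval z (c 0 i)) t := hx3
        rw [h4] at hG hodd
        exact conicM hF hsm A hA t z _ _ _ (by
          funext i
          rw [linear_form (hc2 i)]) ha0 (fun s => h3R M s z) hG hodd

/-- maps given by polynomials of degree at most three in any number of variables -/
theorem main (hn : 1 ≤ n) (hF : F.IsHomogeneous 3) (hsm : Sm F)
    (N : ℕ) (G : Fin (n + 2) → MvPolynomial (Fin N) ℂ) (hG : ∀ i, (G i).totalDegree ≤ 3)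
    (hGF : aeval G F = 0) (y : Fin N → M) (hx : Gp F (fun i => aeval y (G i)))
    (hodd : Odd (finrank (ratioField fun i => aeval y (G i)) M)) : Sect F := by
  choose H hH hHG using fun i => hom3 (G i) (hG i)
  have hHF : aeval H F = 0 := by
    have h1 : (aeval H F).IsHomogeneous (3 * 3) := hF.aeval H hH
    refine hom_zero h1 ?_
    rw [comp_aeval_apply]
    rw [show (fun i => aeval (Fin.cons 1 X : Fin (N + 1) → MvPolynomial (Fin N) ℂ) (H i)) = G
      from funext hHG]
    exact hGF
  have h1 : ∀ i, aeval (Fin.cons 1 y : Fin (N + 1) → M) (H i) = aeval y (G i) := by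
    intro i
    rw [← hHG i, comp_aeval_apply]
    congr 2
    funext j
    refine Fin.cases ?_ (fun l => ?_) j
    · rw [Fin.cons_zero, Fin.cons_zero, map_one]
    · rw [Fin.cons_succ, Fin.cons_succ, aeval_X]
  have he : (fun i => aeval y (G i)) = fun i => aeval (Fin.cons 1 y : Fin (N + 1) → M) (H i) :=
    funext fun i => (h1 i).symm
  rw [he] at hx hodd
  exact main_ind hn hF hsm (N + 1) 3 (by norm_num) le_rfl H hH hHF M (Fin.cons 1 y) hx hodd

end

end Pool.Agent.Run7.h141.CE
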